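import Pool.Agent.Q251.GQ.Sch

/-!
# `n = f(p) + m` with `m` free of prime factors below `n ^ u`, for all but few odd `n`

`f = x² + b x + c` with `b`, `c` of opposite parity and `3 ∤ b`.
-/

set_option autoImplicit false

namespace Pool.Agent.Results.MP_d9bc60_nt.FewExceptionsRough

open Finset

open Classical in
/-- The number of residues `x` modulo `q` with `x (n - f(x)) ≡ 0`, `f = x² + b x + c`. -/
noncomputable def om (b c : ℤ) (n q : ℕ) : ℕ :=
  ((range q).filter (fun x : ℕ => (q : ℤ) ∣ (x : ℤ) * ((n : ℤ) - ((x : ℤ) ^ 2 + b * x + c)))).card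

/-- The partial product over the primes `q ≤ z` of the singular series of
`n = f(p₁) + p₂`. -/
noncomputable def S (b c : ℤ) (n : ℕ) (z : ℝ) : ℝ :=
  ∏ q ∈ (Icc 1 ⌊z⌋₊).filter Nat.Prime, (1 - (om b c n q : ℝ) / q) / (1 - 1 / (q : ℝ)) ^ 2

open Classical in
/-- The primes `p ≤ z` for which `n - f(p) ≥ 2` has no prime factor smaller than `n ^ u`. -/
noncomputable def R (b c : ℤ) (u : ℝ) (n : ℕ) (z : ℝ) : Finset ℕ :=
  (Icc 1 ⌊z⌋₊).filter (fun p : ℕ => p.Prime ∧ 2 ≤ (n : ℤ) - ((p : ℤ) ^ 2 + b * p + c) ∧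
    ∀ q : ℕ, q.Prime → (q : ℤ) ∣ (n : ℤ) - ((p : ℤ) ^ 2 + b * p + c) → (n : ℝ) ^ u ≤ q)

open Polynomial in
lemma om_eq (b c : ℤ) (n q : ℕ) : Pool.Agent.Y882.GP.om (Pool.Agent.Y882.GP.fq b c) n q = om b c n q := by
  unfold Pool.Agent.Y882.GP.om om
  simp_rw [Pool.Agent.Y882.GP.fq_eval]

lemma S_eq (b c : ℤ) (n : ℕ) (z : ℝ) : Pool.Agent.Y882.GP.sing (Pool.Agent.Y882.GP.fq b c) n z = S b c n z := by
  unfold Pool.Agent.Y882.GP.sing S
  apply prod_congr rfl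
  intro q _
  rw [om_eq b c n q]

lemma R_eq (b c : ℤ) (u : ℝ) (n : ℕ) (z : ℝ) :
    Pool.Agent.Q251.GQ.goodu (Pool.Agent.Y882.GP.fq b c) u n z = R b c u n z := by
  classical
  ext p
  unfold Pool.Agent.Q251.GQ.goodu R
  rw [mem_filter, mem_filter, Pool.Agent.Y882.GP.fq_eval]

open Classical in
/-- Let `b` and `c` have opposite parity, `3 ∤ b`, `f = x² + b x + c`.

(I) Let `0 < θ ≤ 1 / 2`, `0 < u < (1 + θ) / 4` and `ε > 0`. With at most
`C X ^ (max (2 / 3, 1 - θ, 4 u - θ) + ε)` exceptions, every `n ≤ X` has at least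
`δ S(n) n ^ θ / (log n) ^ 2` primes `p ≤ n ^ θ` for which `n - f(p)` has no prime factor smaller than
`n ^ u`; and `S(n) ≥ δ / log n` for all odd `n` with `n ^ θ ≥ 3`.

(II) For every `ε > 0` all odd `n ≤ X` with at most `C X ^ (5 / 6 + ε)` exceptions are of the form
`f(p) + m`, where `p` is a prime and `m ≥ 2` has at most two prime factors. -/
theorem result (b c : ℤ) (hbc : Odd (b + c)) (h3 : ¬ (3 : ℤ) ∣ b) :
    (∀ θ u ε : ℝ, 0 < θ → θ ≤ 1 / 2 → 0 < u → 4 * u < 1 + θ → 0 < ε →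
      ∃ δ C : ℝ, 0 < δ ∧ 0 < C ∧
      (∀ X : ℕ, 1 ≤ X →
        (#((Icc 1 X).filter (fun n : ℕ => (#(R b c u n ((n : ℝ) ^ θ)) : ℝ) <
          δ * S b c n ((n : ℝ) ^ θ) * ((n : ℝ) ^ θ / Real.log n ^ 2))) : ℝ) ≤
        C * (X : ℝ) ^ (max (max (2 / 3) (1 - θ)) (4 * u - θ) + ε)) ∧
      ∀ n : ℕ, Odd n → 3 ≤ (n : ℝ) ^ θ → δ / Real.log n ≤ S b c n ((n : ℝ) ^ θ)) ∧
    (∀ ε : ℝ, 0 < ε → ∃ C : ℝ, 0 < C ∧ ∀ X : ℕ, 1 ≤ X →
      (#((Icc 1 X).filter (fun n : ℕ => Odd n ∧ ¬ ∃ p m : ℕ, p.Prime ∧ 2 ≤ m ∧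
        m.primeFactorsList.length ≤ 2 ∧ (n : ℤ) = ((p : ℤ) ^ 2 + b * p + c) + m)) : ℝ) ≤
      C * (X : ℝ) ^ (5 / 6 + ε)) := by
  obtain ⟨c0, hc0, HS⟩ := Pool.Agent.Y882.GP.sing_low
  have hdeg := Pool.Agent.Y882.GP.fq_deg b c
  have hlc := Pool.Agent.Y882.GP.fq_monic b c
  constructor
  · intro θ u ε hθ0 hθ1 hu0 hu4 hε
    obtain ⟨δ, C, hδ, hC, H⟩ := Pool.Agent.Q251.GQ.schzu (Pool.Agent.Y882.GP.fq b c)
      (by rw [hdeg]; norm_num) (by rw [hlc]; norm_num) θ u ε hθ0 (by rw [hdeg]; push_cast; linarith)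
      hu0 hu4 hε
    refine ⟨min δ c0, C, lt_min hδ hc0, hC, fun X hX => ?_, fun n hn hn3 => ?_⟩
    · refine le_trans ?_ (H X hX)
      have hsub : (Icc 1 X).filter (fun n : ℕ => (#(R b c u n ((n : ℝ) ^ θ)) : ℝ) <
          min δ c0 * S b c n ((n : ℝ) ^ θ) * ((n : ℝ) ^ θ / Real.log n ^ 2)) ⊆
          (Icc 1 X).filter (fun N : ℕ => ((Pool.Agent.Q251.GQ.goodu (Pool.Agent.Y882.GP.fq b c) u N
            ((N : ℝ) ^ θ)).card : ℝ) <
          δ * Pool.Agent.Y882.GP.sing (Pool.Agent.Y882.GP.fq b c) N ((N : ℝ) ^ θ) *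
            ((N : ℝ) ^ θ / Real.log N ^ 2)) := by
        intro n hn
        rw [mem_filter] at hn ⊢
        refine ⟨hn.1, ?_⟩
        rw [R_eq]
        refine lt_of_lt_of_le hn.2 ?_
        rw [S_eq]
        apply mul_le_mul_of_nonneg_right _ (by positivity)
        apply mul_le_mul_of_nonneg_right (min_le_left _ _)
        rw [← S_eq]
        exact Pool.Agent.Y882.GP.sing_nonneg _ _ _
      exact_mod_cast card_le_card hsub
    · have h1 := HS b c hbc h3 n hn ((n : ℝ) ^ θ) hn3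
      rw [S_eq] at h1
      have hn1 : (1 : ℝ) < n := by
        by_contra hcon
        push Not at hcon
        have : (n : ℝ) ^ θ ≤ 1 := Real.rpow_le_one (Nat.cast_nonneg _) hcon hθ0.le
        linarith
      have hl : 0 < Real.log n := Real.log_pos hn1
      have hl2 : 0 < Real.log ((n : ℝ) ^ θ) := Real.log_pos (by linarith)
      have hl3 : Real.log ((n : ℝ) ^ θ) ≤ Real.log n := by
        rw [Real.log_rpow (by linarith)]
        nlinarith
      calc min δ c0 / Real.log n ≤ c0 / Real.log n :=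
            div_le_div_of_nonneg_right (min_le_right _ _) hl.le
        _ ≤ c0 / Real.log ((n : ℝ) ^ θ) := div_le_div_of_nonneg_left hc0.le hl2 hl3
        _ ≤ _ := h1
  · intro ε hε
    obtain ⟨δ, C, hδ, hC, H⟩ := Pool.Agent.Y882.GP.schz (Pool.Agent.Y882.GP.fq b c)
      (by rw [hdeg]; norm_num) (by rw [hlc]; norm_num) 2 (1 / 2) ε (by norm_num)
      (by rw [hdeg]; push_cast; norm_num) (by norm_num) hε
    have hexp : max (max (2 / 3) (1 - 1 / 2)) (4 / (((2 : ℕ) : ℝ) + 1) - 1 / 2) + ε = (5 / 6 : ℝ) + ε := by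
      congr 1
      norm_num
    refine ⟨C + 9, by positivity, fun X hX => ?_⟩
    have hXr : (1 : ℝ) ≤ X := by exact_mod_cast hX
    have hX1 : (1 : ℝ) ≤ (X : ℝ) ^ (5 / 6 + ε) := Real.one_le_rpow hXr (by linarith)
    have h1 := H X hX
    rw [hexp] at h1
    have hsub : (Icc 1 X).filter (fun n : ℕ => Odd n ∧ ¬ ∃ p m : ℕ, p.Prime ∧ 2 ≤ m ∧
        m.primeFactorsList.length ≤ 2 ∧ (n : ℤ) = ((p : ℤ) ^ 2 + b * p + c) + m) ⊆
        (Icc 1 X).filter (fun N : ℕ => ((Pool.Agent.Y882.GP.good (Pool.Agent.Y882.GP.fq b c) 2 N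
            ((N : ℝ) ^ (1 / 2 : ℝ))).card : ℝ) <
          δ * Pool.Agent.Y882.GP.sing (Pool.Agent.Y882.GP.fq b c) N ((N : ℝ) ^ (1 / 2 : ℝ)) *
            ((N : ℝ) ^ (1 / 2 : ℝ) / Real.log N ^ 2)) ∪ range 9 := by
      intro n hn
      rw [mem_filter] at hn
      obtain ⟨hnX, hodd, hno⟩ := hn
      rw [mem_union]
      by_cases h9 : n < 9
      · right
        exact mem_range.2 h9
      · left
        push Not at h9
        rw [mem_filter]
        refine ⟨hnX, ?_⟩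
        have h9r : (9 : ℝ) ≤ n := by exact_mod_cast h9
        have hs3 : 3 ≤ (n : ℝ) ^ (1 / 2 : ℝ) := by
          rw [← Real.sqrt_eq_rpow]
          apply Real.le_sqrt_of_sq_le
          linarith
        have hS := HS b c hbc h3 n hodd _ hs3
        have hl2 : 0 < Real.log ((n : ℝ) ^ (1 / 2 : ℝ)) := Real.log_pos (by linarith)
        have hl : 0 < Real.log n := Real.log_pos (by linarith)
        have hSp : 0 < Pool.Agent.Y882.GP.sing (Pool.Agent.Y882.GP.fq b c) n ((n : ℝ) ^ (1 / 2 : ℝ)) :=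
          lt_of_lt_of_le (by positivity) hS
        have hempty : Pool.Agent.Y882.GP.good (Pool.Agent.Y882.GP.fq b c) 2 n
            ((n : ℝ) ^ (1 / 2 : ℝ)) = ∅ := by
          rw [eq_empty_iff_forall_notMem]
          intro p hp
          unfold Pool.Agent.Y882.GP.good at hp
          rw [mem_filter] at hp
          obtain ⟨-, hpp, h2, hlen, -⟩ := hp
          rw [Pool.Agent.Y882.GP.fq_eval] at h2 hlen
          apply hno
          refine ⟨p, ((n : ℤ) - ((p : ℤ) ^ 2 + b * p + c)).natAbs, hpp, by omega, hlen, ?_⟩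
          have h4 : ((((n : ℤ) - ((p : ℤ) ^ 2 + b * p + c)).natAbs : ℕ) : ℤ) =
              (n : ℤ) - ((p : ℤ) ^ 2 + b * p + c) := Int.natAbs_of_nonneg (by linarith)
          rw [h4]
          ring
        rw [hempty, card_empty, Nat.cast_zero]
        positivity
    have h2 := card_le_card hsub
    have h3' := card_union_le ((Icc 1 X).filter (fun N : ℕ => ((Pool.Agent.Y882.GP.good
      (Pool.Agent.Y882.GP.fq b c) 2 N ((N : ℝ) ^ (1 / 2 : ℝ))).card : ℝ) <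
          δ * Pool.Agent.Y882.GP.sing (Pool.Agent.Y882.GP.fq b c) N ((N : ℝ) ^ (1 / 2 : ℝ)) *
            ((N : ℝ) ^ (1 / 2 : ℝ) / Real.log N ^ 2))) (range 9)
    rw [card_range] at h3'
    calc (#((Icc 1 X).filter (fun n : ℕ => Odd n ∧ ¬ ∃ p m : ℕ, p.Prime ∧ 2 ≤ m ∧
        m.primeFactorsList.length ≤ 2 ∧ (n : ℤ) = ((p : ℤ) ^ 2 + b * p + c) + m)) : ℝ) ≤
        (((Icc 1 X).filter (fun N : ℕ => ((Pool.Agent.Y882.GP.good
      (Pool.Agent.Y882.GP.fq b c) 2 N ((N : ℝ) ^ (1 / 2 : ℝ))).card : ℝ) <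
          δ * Pool.Agent.Y882.GP.sing (Pool.Agent.Y882.GP.fq b c) N ((N : ℝ) ^ (1 / 2 : ℝ)) *
            ((N : ℝ) ^ (1 / 2 : ℝ) / Real.log N ^ 2))).card : ℝ) + 9 := by
          exact_mod_cast h2.trans h3'
      _ ≤ C * (X : ℝ) ^ (5 / 6 + ε) + 9 * (X : ℝ) ^ (5 / 6 + ε) := by linarith
      _ = (C + 9) * (X : ℝ) ^ (5 / 6 + ε) := by ring

end Pool.Agent.Results.MP_d9bc60_nt.FewExceptionsRough
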