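import Pool.Agent.Q138.PS.VA
import Pool.Agent.Results.MP_d9bc60_nt.TypicalLeastArgument

/-!
# The typical size of the least `p₁` in `m = f(p₁) + p₂` for `m = ⌊α P(n)⌋`

Let `q ≥ 2` and let `A 0, A 1, ...` be sets of primes. Outside ONE set of real numbers of Hausdorff dimension at most
`q / (q + 1 / (q 2 ^ (q - 1)))` (that is `8 / 9` for `q = 2`) every `α > 0` has the following property. There is `η > 0` such
that for ALL `f = x² + b x + c` with integers `b`, `c` of opposite parity: (1) for every `ε > 0` there is `c₀ > 0` such that for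
all large `N` and ALL integral polynomials `P` of degree `q` with positive leading coefficient and coefficients of size at most
`N ^ η`, for at most `ε N` of the `n ≤ N` the number `m = ⌊α P(n)⌋` is of the form `f(p₁) + p₂` with primes `p₁`, `p₂` and
`p₁ ≤ c₀ log m log log m`; (2) for every `A i` of positive relative lower density in the primes and every `δ > 0` there is
`c₁ > 0` such that for all large `N` and ALL these `P`, for at least `c₁ N` of the `n ≤ N` the number `m = ⌊α P(n)⌋` is odd and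
of the form `f(p₁) + p₂` with `p₁` in `A i`, `p₂` prime and `p₁ ≤ δ log m log log m`.
-/

set_option autoImplicit false

namespace Pool.Agent.Results.MP_d9bc60_nt.LeastArgumentAlongRealMultiples

open Finset Filter Topology
open Pool.Agent.Q138.PS

/-- `m = f(p₁) + p₂` with `p₁` in `A`, `p₂` prime and `p₁ ≤ δ log m log log m` -/
def Rep (b c : ℤ) (A : Set ℕ) (δ : ℝ) (m : ℕ) : Prop :=
  ∃ p r : ℕ, p ∈ A ∧ r.Prime ∧ (p : ℤ) ^ 2 + b * p + c + r = m ∧ (p : ℝ) ≤ δ * (Real.log m * Real.log (Real.log m))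

open Classical in
/-- the number of the `1 ≤ n ≤ N` for which `⌊α P(n)⌋` has the property `S` -/
noncomputable def number (S : ℕ → Prop) (α : ℝ) (P : Polynomial ℤ) (N : ℕ) : ℕ :=
  ((Icc 1 N).filter fun n : ℕ => S ⌊α * ((P.eval (n : ℤ) : ℤ) : ℝ)⌋₊).card

theorem number_eq (S : ℕ → Prop) (α : ℝ) (P : Polynomial ℤ) (N : ℕ) : (number S α P N : ℝ) = cnP S α P N := by
  classical
  unfold number cnP cn
  refine congrArg _ (congrArg _ ?_)
  ext n
  simp only [mem_filter]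

theorem rep_mono {b c : ℤ} {A : Set ℕ} {δ δ' : ℝ} (h : δ ≤ δ') (hδ : 0 < δ) {m : ℕ} (hm : Rep b c A δ m) : Rep b c A δ' m := by
  obtain ⟨p, r, h1, h2, h3, h4⟩ := hm
  refine ⟨p, r, h1, h2, h3, h4.trans ?_⟩
  have h5 : 0 ≤ Real.log m * Real.log (Real.log m) := by
    by_contra h6
    push Not at h6
    have h7 : δ * (Real.log m * Real.log (Real.log m)) < 0 := mul_neg_of_pos_of_neg hδ h6
    have h8 : (0 : ℝ) ≤ p := Nat.cast_nonneg _
    linarith
  gcongr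

/-- monotonicity of `log m log log m` where it matters -/
theorem log_mono {m X : ℕ} {δ : ℝ} (hδ : 0 < δ) (hmX : m ≤ X) {p : ℕ} (hp : 1 ≤ p)
    (h : (p : ℝ) ≤ δ * (Real.log m * Real.log (Real.log m))) : (p : ℝ) ≤ δ * (Real.log X * Real.log (Real.log X)) := by
  have hp0 : (1 : ℝ) ≤ p := by exact_mod_cast hp
  have h1 : 0 < Real.log m * Real.log (Real.log m) := by
    by_contra h6
    push Not at h6
    have h7 : δ * (Real.log m * Real.log (Real.log m)) ≤ 0 := mul_nonpos_of_nonneg_of_nonpos hδ.le h6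
    linarith
  have hm0 : 1 ≤ m := by
    rcases Nat.eq_zero_or_pos m with h0 | h0
    · rw [h0] at h1
      simp at h1
    · exact h0
  have hm1 : (1 : ℝ) ≤ m := by exact_mod_cast hm0
  have hl0 : 0 ≤ Real.log m := Real.log_nonneg hm1
  have hl : 0 < Real.log m := by
    rcases hl0.eq_or_lt with h0 | h0
    · rw [← h0, zero_mul] at h1
      exact absurd h1 (lt_irrefl _)
    · exact h0
  have hll : 0 < Real.log (Real.log m) := by
    by_contra h6
    push Not at h6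
    have := mul_nonpos_of_nonneg_of_nonpos hl0 h6
    linarith
  have h2 : Real.log m ≤ Real.log X := Real.log_le_log (by linarith) (by exact_mod_cast hmX)
  have h3 : Real.log (Real.log m) ≤ Real.log (Real.log X) := Real.log_le_log hl h2
  refine h.trans ?_
  gcongr

theorem upper (b c : ℤ) (hbc : Odd (b + c)) (ε : ℝ) (hε : 0 < ε) :
    ∃ δ : ℚ, 0 < δ ∧ ∀ᶠ y : ℕ in atTop, cn (Rep b c {p | p.Prime} (δ : ℝ)) y ≤ ε * y := by
  classical
  obtain ⟨c₀, hc₀, X₀, h⟩ := (TypicalLeastArgument.result b c hbc).1 ε hε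
  obtain ⟨δ, hδ0, hδ1⟩ := exists_rat_btwn hc₀
  have hδ : (0 : ℝ) < δ := hδ0
  refine ⟨δ, by exact_mod_cast hδ, ?_⟩
  filter_upwards [eventually_ge_atTop X₀] with X hX
  refine le_trans (cn_of_ncard _ _ _ ?_ ?_) (h X hX 0)
  · exact (Set.finite_Icc 0 X).subset fun n hn => ⟨Nat.zero_le _, by
      have := hn.2.1
      omega⟩
  · rintro m hm1 hm2 ⟨p, r, hp, hr, he, hle⟩
    refine ⟨hm1, by omega, p, r, hp, hr, he, ?_⟩
    have h1 := log_mono hδ hm2 (Nat.Prime.one_lt hp).le hle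
    refine h1.trans ?_
    have h2 : 0 ≤ Real.log X * Real.log (Real.log X) := by
      by_contra h6
      push Not at h6
      have h7 := mul_neg_of_pos_of_neg hδ h6
      have h8 : (0 : ℝ) ≤ p := Nat.cast_nonneg _
      linarith
    gcongr

theorem lower (b c : ℤ) (hbc : Odd (b + c)) (A : Set ℕ) (hA : ∀ p ∈ A, p.Prime) (β : ℝ) (hβ : 0 < β)
    (hA' : ∀ᶠ y : ℕ in atTop, β * (y / Real.log y) ≤ Set.ncard {p : ℕ | p ∈ A ∧ p ≤ y}) (δ : ℝ) (hδ : 0 < δ) :
    ∃ c₁ : ℝ, 0 < c₁ ∧ ∀ᶠ y : ℕ in atTop, c₁ * y ≤ cn (fun m => Odd m ∧ Rep b c A δ m) y := by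
  classical
  obtain ⟨c₁, hc₁, h⟩ := (TypicalLeastArgument.result b c hbc).2 β δ hβ hδ
  refine ⟨c₁ / 2, by positivity, ?_⟩
  filter_upwards [h A hA hA', tendsto_natCast_atTop_atTop.eventually_ge_atTop (2 / c₁)] with y hy hy2
  have h1 : (Set.ncard {n : ℕ | n ≤ y ∧ Odd n ∧ ∃ p q : ℕ, p ∈ A ∧ q.Prime ∧
      (p : ℤ) ^ 2 + b * p + c + q = n ∧ (p : ℝ) ≤ δ * (Real.log n * Real.log (Real.log n))} : ℝ) ≤
      cn (fun m => Odd m ∧ Rep b c A δ m) y + 1 := by
    have h2 : {n : ℕ | n ≤ y ∧ Odd n ∧ ∃ p q : ℕ, p ∈ A ∧ q.Prime ∧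
      (p : ℤ) ^ 2 + b * p + c + q = n ∧ (p : ℝ) ≤ δ * (Real.log n * Real.log (Real.log n))} ⊆
      ↑((Icc 1 y).filter (fun m => Odd m ∧ Rep b c A δ m) ∪ {0}) := by
      rintro n ⟨h3, h4, h5⟩
      rw [mem_coe, mem_union, mem_filter, mem_Icc, mem_singleton]
      rcases Nat.eq_zero_or_pos n with h0 | h0
      · exact Or.inr h0
      · exact Or.inl ⟨⟨h0, h3⟩, h4, h5⟩
    have h3 := (Set.ncard_le_ncard h2 (Finset.finite_toSet _))
    rw [Set.ncard_coe_finset] at h3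
    have h4 := h3.trans (card_union_le _ _)
    rw [card_singleton] at h4
    have h5 : cn (fun m => Odd m ∧ Rep b c A δ m) y = (((Icc 1 y).filter (fun m => Odd m ∧ Rep b c A δ m)).card : ℝ) := by
      unfold cn
      refine congrArg _ (congrArg _ ?_)
      ext n
      simp only [mem_filter]
    rw [h5]
    exact_mod_cast h4
  have h2 : 2 / c₁ * (c₁ / 2) ≤ y * (c₁ / 2) := by gcongr
  have h3 : 2 / c₁ * (c₁ / 2) = 1 := by field_simp
  linarith

/-- **Theorem.** -/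
theorem result (q : ℕ) (hq : 2 ≤ q) (A : ℕ → Set ℕ) (hA : ∀ i, ∀ p ∈ A i, p.Prime) :
    ∃ E : Set ℝ, dimH E ≤ ENNReal.ofReal (q / (q + 1 / ((q : ℝ) * 2 ^ (q - 1)))) ∧ ∀ α : ℝ, 0 < α → α ∉ E →
      ∃ η : ℝ, 0 < η ∧ ∀ b c : ℤ, Odd (b + c) →
        (∀ ε : ℝ, 0 < ε → ∃ c₀ : ℝ, 0 < c₀ ∧ ∀ᶠ N : ℕ in atTop, ∀ P : Polynomial ℤ, P.natDegree = q →
          0 < P.leadingCoeff → (∀ j, |((P.coeff j : ℤ) : ℝ)| ≤ (N : ℝ) ^ η) →
          (number (Rep b c {p | p.Prime} c₀) α P N : ℝ) ≤ ε * N) ∧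
        ∀ (i : ℕ) (β : ℝ), 0 < β → (∀ᶠ y : ℕ in atTop, β * (y / Real.log y) ≤ Set.ncard {p : ℕ | p ∈ A i ∧ p ≤ y}) →
          ∀ δ : ℝ, 0 < δ → ∃ c₁ : ℝ, 0 < c₁ ∧ ∀ᶠ N : ℕ in atTop, ∀ P : Polynomial ℤ, P.natDegree = q →
          0 < P.leadingCoeff → (∀ j, |((P.coeff j : ℤ) : ℝ)| ≤ (N : ℝ) ^ η) →
          c₁ * N ≤ (number (fun m => Odd m ∧ Rep b c (A i) δ m) α P N : ℝ) := by
  classical
  obtain ⟨E, hE, hg⟩ := low_unif (ι := ℤ × ℤ × ℚ × (ℕ ⊕ Unit)) q hq (fun i => match i.2.2.2 with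
    | Sum.inl k => fun m => Odd m ∧ Rep i.1 i.2.1 (A k) (i.2.2.1 : ℝ) m
    | Sum.inr () => fun m => ¬ Rep i.1 i.2.1 {p | p.Prime} (i.2.2.1 : ℝ) m)
  refine ⟨E, hE, fun α hα hαE => ?_⟩
  obtain ⟨η, hη, h1⟩ := hg α hα hαE
  refine ⟨η, hη, fun b c hbc => ⟨fun ε hε => ?_, fun i β hβ hAi δ hδ => ?_⟩⟩
  · obtain ⟨δ, hδ, h2⟩ := upper b c hbc (ε / 2) (by positivity)
    refine ⟨δ, by exact_mod_cast hδ, ?_⟩
    have h3 := h1 (b, c, δ, Sum.inr ()) (1 - ε / 2) (fun δ' hδ' => by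
      filter_upwards [h2] with y hy
      have h4 := cn_compl (Rep b c {p | p.Prime} (δ : ℝ)) y
      have h5 : (1 - ε / 2 - δ') * (y : ℝ) = y - ε / 2 * y - δ' * y := by ring
      have h6 : (0 : ℝ) ≤ δ' * y := by positivity
      show (1 - ε / 2 - δ') * (y : ℝ) ≤ cn (fun m => ¬ Rep b c {p | p.Prime} (δ : ℝ) m) y
      linarith) (ε / 2) (by positivity)
    filter_upwards [h3] with N hN
    intro P hdeg hlead hco
    rw [number_eq]
    have h4 : (1 - ε / 2 - ε / 2) * (N : ℝ) ≤ cnP (fun m => ¬ Rep b c {p | p.Prime} (δ : ℝ) m) α P N := hN P hdeg hlead hco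
    have h5 : cnP (Rep b c {p | p.Prime} (δ : ℝ)) α P N + cnP (fun m => ¬ Rep b c {p | p.Prime} (δ : ℝ) m) α P N = N :=
      cn_compl _ N
    have h6 : (1 - ε / 2 - ε / 2) * (N : ℝ) = N - ε * N := by ring
    linarith
  · obtain ⟨δ', hδ0, hδ1⟩ := exists_rat_btwn hδ
    have hδ' : (0 : ℝ) < δ' := hδ0
    obtain ⟨c₁, hc₁, h2⟩ := lower b c hbc (A i) (hA i) β hβ hAi δ' hδ'
    refine ⟨c₁ / 2, by positivity, ?_⟩
    have h3 := h1 (b, c, δ', Sum.inl i) c₁ (fun ε hε => by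
      filter_upwards [h2] with y hy
      have h6 : (0 : ℝ) ≤ ε * y := by positivity
      show (c₁ - ε) * (y : ℝ) ≤ cn (fun m => Odd m ∧ Rep b c (A i) (δ' : ℝ) m) y
      have h5 : (c₁ - ε) * (y : ℝ) = c₁ * y - ε * y := by ring
      linarith) (c₁ / 2) (by positivity)
    filter_upwards [h3] with N hN
    intro P hdeg hlead hco
    rw [number_eq]
    have h4 : (c₁ - c₁ / 2) * (N : ℝ) ≤ cnP (fun m => Odd m ∧ Rep b c (A i) (δ' : ℝ) m) α P N := hN P hdeg hlead hco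
    have h5 : (c₁ - c₁ / 2) * (N : ℝ) = c₁ / 2 * N := by ring
    rw [h5] at h4
    refine h4.trans ?_
    unfold cnP cn
    refine Nat.cast_le.2 (card_le_card ?_)
    intro n hn
    simp only [mem_filter] at hn ⊢
    exact ⟨hn.1, hn.2.1, rep_mono hδ1.le hδ' hn.2.2⟩

end Pool.Agent.Results.MP_d9bc60_nt.LeastArgumentAlongRealMultiples
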