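import Pool.Agent.Q197.PS.CountG

/-!
# The representations `n = f(p) + q` in Cramér's random model, for all polynomials at once

`A` is Cramér's random model of the primes: the events `n ∈ A`, `n ≥ 3`, are independent with the probabilities
`1 / log n`. Almost surely, for every polynomial `f` with integer coefficients, of positive degree and with positive
leading coefficient, every large `n` is `f(p) + q` with elements `p, q` of `A`. The upper limit of the least such `p`
relative to `log² n log log n` is `2`, for every `f`; we determine the exponents of the numbers of the exceptional `n`,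
the limiting law of the least `p` relative to `log n log log n`, and the number of the representations with `p ≤ n ^ α`.
-/

set_option autoImplicit false

namespace Pool.Agent.Results.MP_d9bc60_nt.LeastPrimeLawAllPolynomials

open MeasureTheory Filter Pool.Agent.Q120.MF Pool.Agent.Q197.CI Pool.Agent.Q197.PS
open scoped Topology Polynomial

/-- `n = f(p) + q` for some `q`, with `p` and `q` in `S`. -/
def Rep (f : ℤ[X]) (S : Set ℕ) (n p : ℕ) : Prop :=
  3 ≤ p ∧ p ∈ S ∧ ∃ q : ℕ, 3 ≤ q ∧ q ∈ S ∧ (n : ℤ) = f.eval (p : ℤ) + q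

theorem noRep_iff (f : ℤ[X]) (S : Set ℕ) (n : ℕ) (y : ℝ) : NoRep (pv f) S n y ↔ ¬ ∃ p : ℕ, (p : ℝ) ≤ y ∧ Rep f S n p := by
  unfold NoRep Rep pv
  constructor
  · rintro h ⟨p, h1, h2, h3, h4⟩
    exact h p h2 h1 h3 h4
  · intro h p h1 h2 h3 h4
    exact h ⟨p, h2, h1, h3, h4⟩

theorem result :
    (∃ (Ω : Type) (_ : MeasurableSpace Ω) (μ : Measure Ω) (A : Ω → Set ℕ), IsProbabilityMeasure μ ∧ IsCramer μ A) ∧
    ∀ (Ω : Type) [MeasurableSpace Ω] (μ : Measure Ω) [IsProbabilityMeasure μ] (A : Ω → Set ℕ), IsCramer μ A →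
      (∀ᵐ ω ∂μ, ∀ f : ℤ[X], 1 ≤ f.natDegree → 0 < f.leadingCoeff →
        -- every large `n` is represented, with a small `p`
        (∀ c : ℝ, 2 < c → ∀ᶠ n : ℕ in atTop,
          ∃ p : ℕ, (p : ℝ) ≤ c * (Real.log n ^ 2 * Real.log (Real.log n)) ∧ Rep f (A ω) n p) ∧
        -- the exponents of the numbers of the exceptional `n`
        (∀ c : ℝ, 0 < c → c < 2 → Tendsto (fun N : ℕ =>
          Real.log (cntP (fun n => ¬ ∃ p : ℕ, (p : ℝ) ≤ c * (Real.log n ^ 2 * Real.log (Real.log n)) ∧
            Rep f (A ω) n p) N) / Real.log N) atTop (𝓝 (1 - c / 2))) ∧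
        -- typical values
        (∀ t : ℝ, 0 < t → Tendsto (fun N : ℕ =>
          cntP (fun n => ¬ ∃ p : ℕ, (p : ℝ) ≤ t * (Real.log n * Real.log (Real.log n)) ∧ Rep f (A ω) n p) N / N)
            atTop (𝓝 (Real.exp (-t))))) ∧
      -- the number of the representations with `p ≤ n ^ α`
      ∀ α : ℝ, 0 < α → ∀ᵐ ω ∂μ, ∀ f : ℤ[X], 1 ≤ f.natDegree → 0 < f.leadingCoeff → α * f.natDegree < 1 →
        Tendsto (fun n : ℕ => ({p : ℕ | (p : ℝ) ≤ (n : ℝ) ^ α ∧ Rep f (A ω) n p}.ncard : ℝ) /
          ((n : ℝ) ^ α / Real.log n ^ 2)) atTop (𝓝 (1 / α)) := by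
  refine ⟨⟨_, _, cramerMeasure, cramerSet, inferInstance, isCramer⟩, ?_⟩
  intro Ω _ μ _ A hA
  refine ⟨?_, fun α hα => ?_⟩
  · filter_upwards [main_all hA] with ω h f hf1 hf2
    obtain ⟨h1, h2, h3⟩ := h f hf1 hf2
    have e2 : ∀ (c : ℝ) (n : ℕ), us c 2 1 n = c * (Real.log n ^ 2 * Real.log (Real.log n)) := by
      intro c n
      unfold us
      rw [pow_one]
    have e1 : ∀ (c : ℝ) (n : ℕ), us c 1 1 n = c * (Real.log n * Real.log (Real.log n)) := by
      intro c n
      unfold us
      rw [pow_one, pow_one]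
    refine ⟨fun c hc => ?_, fun c hc0 hc => ?_, fun t ht => ?_⟩
    · filter_upwards [h1 c hc] with n h4
      rw [noRep_iff, not_not, e2] at h4
      exact h4
    · have h4 := h2 c hc0 hc
      simp only [noRep_iff, e2] at h4
      exact h4
    · have h4 := h3 t ht
      simp only [noRep_iff, e1] at h4
      exact h4
  · filter_upwards [count_f hA hα] with ω h f hf1 hf2 hf3
    refine (h f hf1 hf2 hf3).congr (fun n => ?_)
    congr 3
    ext p
    unfold RepSet Rep
    simp only [Set.mem_ofPred_eq]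
    tauto

end Pool.Agent.Results.MP_d9bc60_nt.LeastPrimeLawAllPolynomials
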