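import Pool.Agent.Results.MP_d9bc60_nt.FewExceptionsRough
import Pool.Agent.Q253.Cov.Gold

/-!
# Narrow progressions of primes `p` for which `n - f(p)` is an almost prime

`f = x² + b x + c`, `b`, `c` of opposite parity, `3 ∤ b`. There is a set `E` with `O(X ^ (max (2/3) (1 - θ) (4 u - θ) + ε))` elements up
to `X` such that for all odd `n` outside `E`: every subset of positive relative density of the set of the primes `p ≤ n ^ θ` for which
`n - f(p)` has no prime factor below `n ^ u` contains arithmetic progressions of any length with difference at most a power of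
`log n`; and for every colouring of the integers there are such progressions of one colour with all the `n - f(p)` having the same number
of prime factors (all of them primes, or all products of two primes, if `u > 1/3`).

Libraries (starting files): the number of these `p` (`Y882.GP`, `MP_d9bc60_nt.FewExceptionsRough`), Szemerédi's theorem relative to sifted
sets `Y843.HS.fin`.
-/

set_option autoImplicit false

namespace Pool.Agent.Results.MP_d9bc60_nt.NarrowProgressions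

open Finset Filter
open Pool.Agent.Results.MP_d9bc60_nt.FewExceptionsRough (om S R)
open Pool.Agent.Y843.HS (Pr VV Pr_prime)
open Pool.Agent.Y843.HG (V1 V1_bounds V1_pos fac1)
open Pool.Agent.Q253.Thin (SysZ VZ_nonneg)
open Pool.Agent.Q253.Cov (ap_dense)

open Classical in
/-- the primes `p ≤ n ^ θ` with `f(p) ≥ 1`, `f = x² + b x + c`, such that `n - f(p) ≥ 2` has no prime factor smaller than `n ^ u` -/
noncomputable def Args (b c : ℤ) (θ u : ℝ) (n : ℕ) : Finset ℕ :=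
  (Icc 1 ⌊(n : ℝ) ^ θ⌋₊).filter (fun p : ℕ => p.Prime ∧ 1 ≤ (p : ℤ) ^ 2 + b * p + c ∧ 2 ≤ (n : ℤ) - ((p : ℤ) ^ 2 + b * p + c) ∧
    ∀ q : ℕ, q.Prime → (q : ℤ) ∣ (n : ℤ) - ((p : ℤ) ^ 2 + b * p + c) → (n : ℝ) ^ u ≤ q)

/-- the number of the prime factors of `n - f(p)` -/
def facs (b c : ℤ) (n p : ℕ) : ℕ := ((n : ℤ) - ((p : ℤ) ^ 2 + b * p + c)).natAbs.primeFactorsList.length

lemma mem_A {b c : ℤ} {θ u : ℝ} {n p : ℕ} (h : p ∈ Args b c θ u n) : (1 ≤ p ∧ p ≤ ⌊(n : ℝ) ^ θ⌋₊) ∧ p.Prime ∧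
    1 ≤ (p : ℤ) ^ 2 + b * p + c ∧ 2 ≤ (n : ℤ) - ((p : ℤ) ^ 2 + b * p + c) ∧
    ∀ q : ℕ, q.Prime → (q : ℤ) ∣ (n : ℤ) - ((p : ℤ) ^ 2 + b * p + c) → (n : ℝ) ^ u ≤ q := by
  classical
  unfold Args at h
  rw [mem_filter, mem_Icc] at h
  exact h

lemma count (b c : ℤ) (θ u : ℝ) (n : ℕ) :
    (R b c u n ((n : ℝ) ^ θ)).card ≤ (Args b c θ u n).card + (b.natAbs + c.natAbs + 1) := by
  classical
  have h : R b c u n ((n : ℝ) ^ θ) ⊆ Args b c θ u n ∪ range (b.natAbs + c.natAbs + 1) := by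
    intro p hp
    unfold FewExceptionsRough.R at hp
    rw [mem_filter] at hp
    rw [mem_union]
    by_cases h1 : p < b.natAbs + c.natAbs + 1
    · exact Or.inr (mem_range.2 h1)
    · left
      unfold Args
      rw [mem_filter]
      refine ⟨hp.1, hp.2.1, ?_, hp.2.2⟩
      have h2 : (b.natAbs : ℤ) + c.natAbs + 1 ≤ p := by
        push Not at h1
        exact_mod_cast h1
      rw [Int.natCast_natAbs, Int.natCast_natAbs] at h2
      have h3 := neg_abs_le b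
      have h4 := neg_abs_le c
      have h5 : (1 : ℤ) ≤ p := by
        have := abs_nonneg b
        have := abs_nonneg c
        linarith
      nlinarith [abs_nonneg b, abs_nonneg c]
  refine (card_le_card h).trans ((card_union_le _ _).trans ?_)
  rw [card_range]

/-- the classes -/
def Zs (b c : ℤ) (n q : ℕ) : Finset ℕ :=
  (range q).filter (fun x : ℕ => (q : ℤ) ∣ (x : ℤ) * ((n : ℤ) - ((x : ℤ) ^ 2 + b * x + c)))

lemma Zs_card (b c : ℤ) (n q : ℕ) : (Zs b c n q).card = om b c n q := by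
  classical
  unfold Zs FewExceptionsRough.om
  congr 1

lemma om_bounds {b c : ℤ} (hbc : Odd (b + c)) (h3 : ¬ (3 : ℤ) ∣ b) {n : ℕ} (hn : Odd n) {q : ℕ} (hq : q.Prime) :
    om b c n q ≤ 3 ∧ om b c n q < q := by
  have h1 := Pool.Agent.Y882.GP.om_eq (Pool.Agent.Y882.GP.fq b c) n q hq
  rw [FewExceptionsRough.om_eq] at h1
  have h2 : Pool.Agent.Y882.GP.rs (Pool.Agent.Y882.GP.fq b c) (-(n : ℤ)) q ≤ 2 := by
    refine (Pool.Agent.Y882.GP.rs_le_ro _ _ _).trans ((Pool.Agent.Y882.PX.ro_le _ (by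
      rw [Pool.Agent.Y882.GP.fq_deg]
      norm_num) _ q hq).trans ?_)
    rw [Pool.Agent.Y882.GP.fq_KF]
  refine ⟨by omega, ?_⟩
  have hq2 := hq.two_le
  by_cases h5 : 4 ≤ q
  · omega
  · have h23 : q = 2 ∨ q = 3 := by omega
    rcases h23 with rfl | rfl
    · rw [Pool.Agent.Y882.GP.rs_two b c hbc n hn] at h1
      omega
    · have := Pool.Agent.Y882.GP.rs_three b c h3 (-(n : ℤ))
      omega

lemma Zs_sys {b c : ℤ} (hbc : Odd (b + c)) (h3 : ¬ (3 : ℤ) ∣ b) {n : ℕ} (hn : Odd n) : SysZ 3 (Zs b c n) where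
  card := fun p hp => by rw [Zs_card]; exact (om_bounds hbc h3 hn hp).1
  loc := fun p hp => by rw [Zs_card]; exact (om_bounds hbc h3 hn hp).2
  lt := fun _ _ _ hc => mem_range.1 (mem_filter.1 hc).1

lemma VV_S (b c : ℤ) (n X : ℕ) (z : ℝ) (hX : X = ⌊z⌋₊) : VV (Zs b c n) 0 X = S b c n z * V1 X ^ 2 := by
  unfold FewExceptionsRough.S
  rw [← hX]
  have h : (Icc 1 X).filter Nat.Prime = Pr 0 X := by
    unfold Pr
    ext p
    simp only [mem_filter, mem_Icc, mem_Ioc]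
    constructor
    · rintro ⟨⟨h1, h2⟩, h3⟩
      exact ⟨⟨by omega, h2⟩, h3⟩
    · rintro ⟨⟨h1, h2⟩, h3⟩
      exact ⟨⟨by omega, h2⟩, h3⟩
  rw [h]
  unfold VV V1
  rw [← prod_pow, ← prod_mul_distrib]
  apply prod_congr rfl
  intro q hq
  rw [Zs_card]
  have h1 := (fac1 (Pr_prime hq)).1
  have h2 : (1 - 1 / (q : ℝ)) ^ 2 ≠ 0 := by positivity
  rw [div_mul_cancel₀ _ h2]

lemma mem_Zs {b c : ℤ} {n q p : ℕ} (h : p % q ∈ Zs b c n q) :
    (q : ℤ) ∣ (p : ℤ) * ((n : ℤ) - ((p : ℤ) ^ 2 + b * p + c)) := by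
  unfold Zs at h
  rw [mem_filter] at h
  have h1 : ((p % q : ℕ) : ℤ) ≡ p [ZMOD q] := by
    rw [Int.natCast_mod]
    exact Int.mod_modEq _ _
  have h2 : ((p % q : ℕ) : ℤ) * ((n : ℤ) - (((p % q : ℕ) : ℤ) ^ 2 + b * ((p % q : ℕ) : ℤ) + c)) ≡
      (p : ℤ) * ((n : ℤ) - ((p : ℤ) ^ 2 + b * p + c)) [ZMOD q] :=
    h1.mul ((Int.ModEq.refl _).sub (((h1.pow 2).add (h1.mul_left b)).add_right c))
  exact (Int.ModEq.dvd_iff h2).1 h.2

/-- the dense version, for one `n` -/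
theorem dense (b c : ℤ) (hbc : Odd (b + c)) (h3 : ¬ (3 : ℤ) ∣ b) (L : ℕ) (θ u c₀ δ : ℝ) (hθ : 0 < θ) (hθ1 : θ ≤ 1 / 2) (hu : 0 < u)
    (hu1 : u ≤ 1) (hc₀ : 0 < c₀) (hδ : 0 < δ)
    (hS : ∀ n : ℕ, Odd n → 3 ≤ (n : ℝ) ^ θ → δ / Real.log n ≤ S b c n ((n : ℝ) ^ θ)) :
    ∃ D N₀ : ℕ, ∀ n : ℕ, N₀ ≤ n → Odd n → ∀ T ⊆ Args b c θ u n,
    c₀ * (S b c n ((n : ℝ) ^ θ) * ((n : ℝ) ^ θ / Real.log n ^ 2)) ≤ (T.card : ℝ) →
    ∃ a d : ℕ, 1 ≤ d ∧ (d : ℝ) ≤ Real.log n ^ D ∧ ∀ j < L, a + j * d ∈ T := by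
  classical
  obtain ⟨κ, hκ⟩ : ∃ κ, κ = u / 2 := ⟨_, rfl⟩
  have hκ0 : 0 < κ := by rw [hκ]; positivity
  obtain ⟨cV, C, hcV, hC, hV⟩ := V1_bounds
  obtain ⟨D, X₀, H⟩ := ap_dense L 3 κ (c₀ * θ ^ 2 / (8 * C ^ 2)) hκ0 (by linarith) (by positivity)
  have ev1 : ∀ᶠ N : ℕ in atTop, (max 4 ((X₀ : ℝ) + 1)) ≤ (N : ℝ) ^ (θ / 2) :=
    ((tendsto_rpow_atTop (by linarith)).comp tendsto_natCast_atTop_atTop).eventually_ge_atTop _
  have ev2 : ∀ᶠ N : ℕ in atTop, 2 * Real.log N ^ 3 ≤ c₀ * δ * (N : ℝ) ^ (θ / 2) := by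
    have h1 : Tendsto (fun x : ℝ => Real.log x ^ (3 : ℝ) / x ^ (θ / 2)) atTop (nhds 0) :=
      (isLittleO_log_rpow_rpow_atTop 3 (by positivity)).tendsto_div_nhds_zero
    have h2 := h1.eventually_le_const (show (0 : ℝ) < c₀ * δ / 2 by positivity)
    have h3 := tendsto_natCast_atTop_atTop.eventually (h2.and (eventually_gt_atTop (1 : ℝ)))
    filter_upwards [h3] with N hN
    obtain ⟨h4, h5⟩ := hN
    have h6 : (0 : ℝ) < (N : ℝ) ^ (θ / 2) := by positivity
    rw [div_le_iff₀ h6] at h4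
    have h7 : Real.log (N : ℝ) ^ (3 : ℝ) = Real.log N ^ 3 := by
      rw [← Real.rpow_natCast]
      norm_num
    rw [h7] at h4
    linarith
  obtain ⟨N₁, hN₁⟩ := eventually_atTop.1 (ev1.and ev2)
  refine ⟨D, max N₁ 3, ?_⟩
  intro n hn hodd T hT hcard
  obtain ⟨e1, e2⟩ := hN₁ n ((le_max_left _ _).trans hn)
  have hn3 : 3 ≤ n := (le_max_right _ _).trans hn
  have hnr : (3 : ℝ) ≤ n := by exact_mod_cast hn3
  have hn0 : (0 : ℝ) < n := by linarith
  have hn1 : (1 : ℝ) < n := by linarith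
  have hln : 0 < Real.log n := Real.log_pos hn1
  obtain ⟨X, hX⟩ : ∃ X, X = ⌊(n : ℝ) ^ θ⌋₊ := ⟨_, rfl⟩
  have hsq : (n : ℝ) ^ (θ / 2) * (n : ℝ) ^ (θ / 2) = (n : ℝ) ^ θ := by
    rw [← Real.rpow_add hn0]
    congr 1
    ring
  have e1' : (4 : ℝ) ≤ (n : ℝ) ^ (θ / 2) := (le_max_left _ _).trans e1
  have hXle : (X : ℝ) ≤ (n : ℝ) ^ θ := by rw [hX]; exact Nat.floor_le (by positivity)
  have hXge : (n : ℝ) ^ (θ / 2) ≤ X := by
    have h1 := Nat.lt_floor_add_one ((n : ℝ) ^ θ)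
    rw [← hX] at h1
    nlinarith
  have hX0 : X₀ ≤ X := by
    have h1 : (X₀ : ℝ) ≤ X := by linarith [(le_max_right (4 : ℝ) ((X₀ : ℝ) + 1)).trans e1]
    exact_mod_cast h1
  have hX2 : 2 ≤ X := by
    have h1 : (2 : ℝ) ≤ X := by linarith
    exact_mod_cast h1
  have hXr : (2 : ℝ) ≤ X := by exact_mod_cast hX2
  have hXN : (X : ℝ) ≤ n := by
    refine hXle.trans ?_
    calc (n : ℝ) ^ θ ≤ (n : ℝ) ^ (1 : ℝ) := Real.rpow_le_rpow_of_exponent_le hn1.le (by linarith)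
      _ = n := Real.rpow_one _
  have hXκ1 : (X : ℝ) ^ κ < (n : ℝ) ^ u := by
    calc (X : ℝ) ^ κ ≤ (n : ℝ) ^ κ := Real.rpow_le_rpow (by linarith) hXN hκ0.le
      _ < (n : ℝ) ^ u := Real.rpow_lt_rpow_of_exponent_lt hn1 (by rw [hκ]; linarith)
  have hXκ2 : (X : ℝ) ^ κ ≤ (n : ℝ) ^ (θ / 2) := by
    calc (X : ℝ) ^ κ ≤ ((n : ℝ) ^ θ) ^ κ := Real.rpow_le_rpow (by linarith) hXle hκ0.le
      _ = (n : ℝ) ^ (θ * κ) := by rw [Real.rpow_mul hn0.le]
      _ ≤ _ := Real.rpow_le_rpow_of_exponent_le hn1.le (by rw [hκ]; nlinarith)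
  -- remove the small primes
  obtain ⟨Q, hQ⟩ : ∃ Q, Q = S b c n ((n : ℝ) ^ θ) := ⟨_, rfl⟩
  have hQ1 : δ / Real.log n ≤ Q := by
    rw [hQ]
    apply hS n hodd
    nlinarith
  have hQ0 : 0 < Q := lt_of_lt_of_le (by positivity) hQ1
  rw [← hQ] at hcard
  obtain ⟨T', hT'⟩ : ∃ T' : Finset ℕ, T' = T.filter (fun p : ℕ => (X : ℝ) ^ κ < p) := ⟨_, rfl⟩
  have hcard' : c₀ / 2 * (Q * ((n : ℝ) ^ θ / Real.log n ^ 2)) ≤ (T'.card : ℝ) := by
    have h1 : (T.filter (fun p : ℕ => (X : ℝ) ^ κ < p)).card + (T.filter (fun p : ℕ => ¬ (X : ℝ) ^ κ < p)).card = T.card :=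
      card_filter_add_card_filter_not _
    have h2 : ((T.filter (fun p : ℕ => ¬ (X : ℝ) ^ κ < p)).card : ℝ) ≤ (X : ℝ) ^ κ := by
      have h4 : T.filter (fun p : ℕ => ¬ (X : ℝ) ^ κ < p) ⊆ Icc 1 ⌊(X : ℝ) ^ κ⌋₊ := by
        intro p hp
        rw [mem_filter, not_lt] at hp
        rw [mem_Icc]
        exact ⟨(mem_A (hT hp.1)).1.1, Nat.le_floor hp.2⟩
      have h5 := card_le_card h4
      rw [Nat.card_Icc, Nat.add_sub_cancel] at h5
      exact (Nat.cast_le.2 h5).trans (Nat.floor_le (by positivity))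
    have h6 : (T'.card : ℝ) + ((T.filter (fun p : ℕ => ¬ (X : ℝ) ^ κ < p)).card : ℝ) = T.card := by
      rw [hT']
      exact_mod_cast h1
    have h7 : 2 * (X : ℝ) ^ κ ≤ c₀ * (Q * ((n : ℝ) ^ θ / Real.log n ^ 2)) := by
      calc 2 * (X : ℝ) ^ κ ≤ 2 * (n : ℝ) ^ (θ / 2) := by linarith
        _ = 2 * Real.log n ^ 3 * ((n : ℝ) ^ (θ / 2) / Real.log n ^ 3) := by field_simp
        _ ≤ c₀ * δ * (n : ℝ) ^ (θ / 2) * ((n : ℝ) ^ (θ / 2) / Real.log n ^ 3) :=
            mul_le_mul_of_nonneg_right e2 (by positivity)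
        _ = c₀ * (δ / Real.log n * ((n : ℝ) ^ θ / Real.log n ^ 2)) := by
            rw [← hsq]
            field_simp
        _ ≤ _ := by
            apply mul_le_mul_of_nonneg_left _ hc₀.le
            exact mul_le_mul_of_nonneg_right hQ1 (by positivity)
    linarith
  obtain ⟨a, d, hd1, hd2, hd3⟩ := H X hX0 (Zs b c n) (Zs_sys hbc h3 hodd) 0 T' (by
    intro p hp
    rw [hT', mem_filter] at hp
    obtain ⟨⟨h1, h2⟩, _⟩ := mem_A (hT hp.1)
    rw [mem_Ioc, Nat.zero_add, hX]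
    exact ⟨h1, h2⟩) (by
    intro p hp q hq hqX hmp
    rw [hT', mem_filter] at hp
    obtain ⟨_, h2, _, _, h6⟩ := mem_A (hT hp.1)
    have h7 := mem_Zs hmp
    rcases (Int.Prime.dvd_mul' hq h7) with h | h
    · have h8 : q ∣ p := by exact_mod_cast h
      have h9 := (Nat.prime_dvd_prime_iff_eq hq h2).1 h8
      rw [h9] at hqX
      linarith [hp.2]
    · have h8 := h6 q hq h
      linarith) (by
    refine le_trans ?_ hcard'
    have hlX0 : 0 < Real.log X := Real.log_pos (by linarith)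
    have hlX : θ / 2 * Real.log n ≤ Real.log X := by
      have h1 := Real.log_le_log (by positivity) hXge
      rwa [Real.log_rpow hn0] at h1
    rw [VV_S b c n X _ hX, ← hQ]
    have h1 : V1 X ^ 2 ≤ C ^ 2 * (4 / θ ^ 2 / Real.log n ^ 2) := by
      calc V1 X ^ 2 ≤ (C / Real.log X) ^ 2 := pow_le_pow_left₀ (V1_pos X).le (hV X hX2).2 2
        _ ≤ (C / (θ / 2 * Real.log n)) ^ 2 := by
            apply pow_le_pow_left₀ (by positivity)
            exact div_le_div_of_nonneg_left hC.le (by positivity) hlX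
        _ = _ := by
            field_simp
            norm_num
    calc c₀ * θ ^ 2 / (8 * C ^ 2) * (X * (Q * V1 X ^ 2)) ≤
          c₀ * θ ^ 2 / (8 * C ^ 2) * ((n : ℝ) ^ θ * (Q * (C ^ 2 * (4 / θ ^ 2 / Real.log n ^ 2)))) := by
          apply mul_le_mul_of_nonneg_left _ (by positivity)
          apply mul_le_mul hXle (mul_le_mul_of_nonneg_left h1 hQ0.le) (by positivity) (by positivity)
      _ = _ := by
          field_simp
          norm_num)
  refine ⟨a, d, hd1, hd2.trans ?_, ?_⟩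
  · apply pow_le_pow_left₀ (Real.log_nonneg (by linarith))
    exact Real.log_le_log (by linarith) hXN
  · intro j hj
    have h1 := hd3 j hj
    rw [hT', mem_filter] at h1
    exact h1.1

lemma facs_bounds {b c : ℤ} {θ u : ℝ} (hu : 0 < u) {n p : ℕ} (hn : 2 ≤ n) (hp : p ∈ Args b c θ u n) :
    1 ≤ facs b c n p ∧ (facs b c n p : ℝ) * u < 1 := by
  obtain ⟨_, _, h1, h2, h3⟩ := mem_A hp
  obtain ⟨m, hm⟩ : ∃ m : ℕ, m = ((n : ℤ) - ((p : ℤ) ^ 2 + b * p + c)).natAbs := ⟨_, rfl⟩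
  have hmz : (m : ℤ) = (n : ℤ) - ((p : ℤ) ^ 2 + b * p + c) := by
    rw [hm, Int.natCast_natAbs]
    exact abs_of_nonneg (by linarith)
  have hm2 : 2 ≤ m := by
    have : (2 : ℤ) ≤ m := by rw [hmz]; exact h2
    exact_mod_cast this
  have hmn : m < n := by
    have : (m : ℤ) < n := by rw [hmz]; linarith
    exact_mod_cast this
  have hnr : (2 : ℝ) ≤ n := by exact_mod_cast hn
  unfold facs
  rw [← hm]
  have hs : 1 ≤ m.primeFactorsList.length := by
    by_contra hcon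
    have h4 := List.length_eq_zero_iff.1 (by omega : m.primeFactorsList.length = 0)
    rw [Nat.primeFactorsList_eq_nil] at h4
    omega
  refine ⟨hs, ?_⟩
  by_contra hcon
  push Not at hcon
  have h4 := Pool.Agent.Y882.GP.omega_bound m ((n : ℝ) ^ u) (Real.one_le_rpow (by linarith) hu.le) (m.primeFactorsList.length - 1)
    (by omega) (by
      intro q hq hqm
      apply h3 q hq
      rw [← hmz]
      exact_mod_cast hqm) (by
      rw [Nat.sub_add_cancel hs]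
      calc (m : ℝ) < n := by exact_mod_cast hmn
        _ = (n : ℝ) ^ (1 : ℝ) := (Real.rpow_one _).symm
        _ ≤ (n : ℝ) ^ (u * m.primeFactorsList.length) :=
            Real.rpow_le_rpow_of_exponent_le (by linarith) (by linarith)
        _ = _ := by rw [Real.rpow_mul (by linarith), Real.rpow_natCast])
  omega

open Classical in
/-- **Narrow progressions of prime arguments.** Let `f = x² + b x + c`, `b` and `c` of opposite parity, `3 ∤ b`; let `0 < θ ≤ 1 / 2`,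
`0 < u < (1 + θ) / 4` and `ε > 0`. There is a set `E` with `O(X ^ (max (2/3, 1 - θ, 4 u - θ) + ε))` elements up to `X` such that, with
`Args n` the set of the primes `p ≤ n ^ θ` with `f(p) ≥ 1` for which `n - f(p) ≥ 2` has no prime factor below `n ^ u`, for all `L`:

(1) for every `η > 0` there are `D` and `N₀` such that for all odd `n ≥ N₀` outside `E` every set of at least `η |Args n|` elements of
`Args n` contains an arithmetic progression of length `L` with difference `≤ log ^ D n`;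

(2) for every `k ≥ 1` there are `D` and `N₀` such that for all odd `n ≥ N₀` outside `E` and every colouring of the integers with `k`
colours there are `s ≥ 1` with `s u < 1` and an arithmetic progression of length `L` with difference `≤ log ^ D n` of elements `p` of
`Args n` of the same colour such that all the numbers `n - f(p)` have exactly `s` prime factors;

here `Args n` has at least `δ n ^ θ / log ^ 3 n` elements for large odd `n ∉ E`. -/
theorem result : ∀ (b c : ℤ), Odd (b + c) → ¬ (3 : ℤ) ∣ b → ∀ (θ u ε : ℝ), 0 < θ → θ ≤ 1 / 2 → 0 < u → 4 * u < 1 + θ → 0 < ε →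
    ∃ δ C : ℝ, 0 < δ ∧ 0 < C ∧ ∃ E : Set ℕ,
    (∀ X : ℕ, 1 ≤ X → (((Icc 1 X).filter (fun n => n ∈ E)).card : ℝ) ≤
      C * (X : ℝ) ^ (max (max (2 / 3) (1 - θ)) (4 * u - θ) + ε)) ∧
    (∃ N₁ : ℕ, ∀ n : ℕ, N₁ ≤ n → Odd n → n ∉ E → δ * ((n : ℝ) ^ θ / Real.log n ^ 3) ≤ ((Args b c θ u n).card : ℝ)) ∧
    ∀ L : ℕ,
      (∀ η : ℝ, 0 < η → ∃ D N₀ : ℕ, ∀ n : ℕ, N₀ ≤ n → Odd n → n ∉ E → ∀ T ⊆ Args b c θ u n, η * (Args b c θ u n).card ≤ T.card →
        ∃ a d : ℕ, 1 ≤ d ∧ (d : ℝ) ≤ Real.log n ^ D ∧ ∀ j < L, a + j * d ∈ T) ∧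
      (∀ k : ℕ, 1 ≤ k → ∃ D N₀ : ℕ, ∀ n : ℕ, N₀ ≤ n → Odd n → n ∉ E → ∀ col : ℕ → Fin k,
        ∃ s : ℕ, 1 ≤ s ∧ s * u < 1 ∧ ∃ i : Fin k, ∃ a d : ℕ, 1 ≤ d ∧ (d : ℝ) ≤ Real.log n ^ D ∧ ∀ j < L,
          a + j * d ∈ Args b c θ u n ∧ col (a + j * d) = i ∧ facs b c n (a + j * d) = s) := by
  intro b c hbc h3 θ u ε hθ hθ1 hu hu4 hε
  obtain ⟨δ, C, hδ, hC, hex, hS⟩ := (FewExceptionsRough.result b c hbc h3).1 θ u ε hθ hθ1 hu hu4 hε
  obtain ⟨E, hE⟩ : ∃ E : Set ℕ, E = {n | (((R b c u n ((n : ℝ) ^ θ)).card : ℕ) : ℝ) <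
    δ * S b c n ((n : ℝ) ^ θ) * ((n : ℝ) ^ θ / Real.log n ^ 2)} := ⟨_, rfl⟩
  obtain ⟨B, hB⟩ : ∃ B : ℕ, B = b.natAbs + c.natAbs + 1 := ⟨_, rfl⟩
  have ev1 : ∀ᶠ n : ℕ in atTop, 2 * (B : ℝ) * Real.log n ^ 3 ≤ δ * δ * (n : ℝ) ^ θ := by
    have h1 : Tendsto (fun x : ℝ => Real.log x ^ (3 : ℝ) / x ^ θ) atTop (nhds 0) :=
      (isLittleO_log_rpow_rpow_atTop 3 hθ).tendsto_div_nhds_zero
    have hB0 : (0 : ℝ) < B := by
      have : 0 < B := by omega
      exact_mod_cast this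
    have h2 := h1.eventually_le_const (show (0 : ℝ) < δ * δ / (2 * B) by positivity)
    have h3 := tendsto_natCast_atTop_atTop.eventually (h2.and (eventually_gt_atTop (1 : ℝ)))
    filter_upwards [h3] with N hN
    obtain ⟨h4, h5⟩ := hN
    have h6 : (0 : ℝ) < (N : ℝ) ^ θ := by positivity
    have h7 : Real.log (N : ℝ) ^ (3 : ℝ) = Real.log N ^ 3 := by
      rw [← Real.rpow_natCast]
      norm_num
    rw [div_le_div_iff₀ h6 (by positivity), h7] at h4
    linarith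
  have ev2 : ∀ᶠ n : ℕ in atTop, (3 : ℝ) ≤ (n : ℝ) ^ θ :=
    ((tendsto_rpow_atTop hθ).comp tendsto_natCast_atTop_atTop).eventually_ge_atTop _
  obtain ⟨N₁, hN₁⟩ := eventually_atTop.1 (ev1.and (ev2.and (eventually_ge_atTop 2)))
  have hout : ∀ n, N₁ ≤ n → Odd n → n ∉ E → δ / 2 * (S b c n ((n : ℝ) ^ θ) * ((n : ℝ) ^ θ / Real.log n ^ 2)) ≤
      ((Args b c θ u n).card : ℝ) := by
    intro n hn hodd hnE
    obtain ⟨e1, e2, e3⟩ := hN₁ n hn
    rw [hE, Set.mem_ofPred_eq, not_lt] at hnE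
    have h2 : (((R b c u n ((n : ℝ) ^ θ)).card : ℕ) : ℝ) ≤ (Args b c θ u n).card + B := by
      rw [hB]
      exact_mod_cast count b c θ u n
    have h4 := hS n hodd e2
    have hln : 0 < Real.log n := Real.log_pos (by exact_mod_cast (by omega : 1 < n))
    obtain ⟨Q, hQ⟩ : ∃ Q, Q = S b c n ((n : ℝ) ^ θ) := ⟨_, rfl⟩
    rw [← hQ] at h4 hnE ⊢
    have h5 : 2 * (B : ℝ) ≤ δ * (Q * ((n : ℝ) ^ θ / Real.log n ^ 2)) := by
      calc 2 * (B : ℝ) = 2 * B * Real.log n ^ 3 / Real.log n ^ 3 := by field_simp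
        _ ≤ δ * δ * (n : ℝ) ^ θ / Real.log n ^ 3 := div_le_div_of_nonneg_right e1 (by positivity)
        _ = δ * (δ / Real.log n * ((n : ℝ) ^ θ / Real.log n ^ 2)) := by field_simp
        _ ≤ _ := by
            apply mul_le_mul_of_nonneg_left _ hδ.le
            exact mul_le_mul_of_nonneg_right h4 (by positivity)
    have h6 : δ * Q * ((n : ℝ) ^ θ / Real.log n ^ 2) = δ * (Q * ((n : ℝ) ^ θ / Real.log n ^ 2)) := by ring
    rw [h6] at hnE
    linarith
  refine ⟨min (δ / 2) (δ * δ / 2), C, by positivity, hC, E, ?_, ⟨N₁, ?_⟩, ?_⟩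
  · intro X hX
    refine le_trans (Nat.cast_le.2 (card_le_card ?_)) (hex X hX)
    intro n hn
    rw [mem_filter, hE, Set.mem_ofPred_eq] at hn
    rw [mem_filter]
    exact hn
  · intro n hn hodd hnE
    obtain ⟨_, e2, e3⟩ := hN₁ n hn
    refine le_trans ?_ (hout n hn hodd hnE)
    have h4 := hS n hodd e2
    have hln : 0 < Real.log n := Real.log_pos (by exact_mod_cast (by omega : 1 < n))
    calc min (δ / 2) (δ * δ / 2) * ((n : ℝ) ^ θ / Real.log n ^ 3) ≤ δ * δ / 2 * ((n : ℝ) ^ θ / Real.log n ^ 3) :=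
          mul_le_mul_of_nonneg_right (min_le_right _ _) (by positivity)
      _ = δ / 2 * (δ / Real.log n * ((n : ℝ) ^ θ / Real.log n ^ 2)) := by field_simp
      _ ≤ _ := by
          apply mul_le_mul_of_nonneg_left _ (by positivity)
          exact mul_le_mul_of_nonneg_right h4 (by positivity)
  · intro L
    have hu1 : u ≤ 1 := by linarith
    constructor
    · intro η hη
      obtain ⟨D, N₀, H⟩ := dense b c hbc h3 L θ u (η * (δ / 2)) δ hθ hθ1 hu hu1 (by positivity) hδ hS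
      refine ⟨D, max N₀ N₁, fun n hn hodd hnE T hT hcard => H n ((le_max_left _ _).trans hn) hodd T hT ?_⟩
      refine le_trans (le_of_eq ?_) ((mul_le_mul_of_nonneg_left (hout n ((le_max_right _ _).trans hn) hodd hnE) hη.le).trans hcard)
      ring
    · intro k hk
      have hk0 : (0 : ℝ) < k := by exact_mod_cast hk
      obtain ⟨r, hr⟩ : ∃ r : ℕ, r = ⌈1 / u⌉₊ := ⟨_, rfl⟩
      have hr1 : 1 ≤ r := by rw [hr]; exact Nat.ceil_pos.2 (by positivity)
      have hr0 : (0 : ℝ) < r := by exact_mod_cast hr1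
      obtain ⟨D, N₀, H⟩ := dense b c hbc h3 L θ u (δ / 2 / (r * k)) δ hθ hθ1 hu hu1 (by positivity) hδ hS
      refine ⟨D, max N₀ N₁, fun n hn hodd hnE col => ?_⟩
      obtain ⟨_, _, e3⟩ := hN₁ n ((le_max_right _ _).trans hn)
      obtain ⟨K, hK⟩ : ∃ K : Finset (ℕ × Fin k), K = (Icc 1 r) ×ˢ univ := ⟨_, rfl⟩
      have hKc : K.card = r * k := by
        rw [hK, card_product, card_univ, Fintype.card_fin, Nat.card_Icc, Nat.add_sub_cancel]
      have hcov : Args b c θ u n ⊆ K.biUnion (fun x => (Args b c θ u n).filter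
          (fun m => facs b c n m = x.1 ∧ col m = x.2)) := by
        intro m hm
        rw [mem_biUnion]
        obtain ⟨h1, h2⟩ := facs_bounds hu e3 hm
        refine ⟨(facs b c n m, col m), ?_, ?_⟩
        · rw [hK, mem_product]
          refine ⟨?_, mem_univ _⟩
          rw [mem_Icc]
          refine ⟨h1, ?_⟩
          have h5 : (facs b c n m : ℝ) < 1 / u := by
            rw [lt_div_iff₀ hu]
            exact h2
          have h6 : (facs b c n m : ℝ) ≤ r := by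
            rw [hr]
            exact h5.le.trans (Nat.le_ceil _)
          exact_mod_cast h6
        · rw [mem_filter]
          exact ⟨hm, rfl, rfl⟩
      obtain ⟨x, hx, hcc⟩ : ∃ x ∈ K, δ / 2 / (r * k) * (S b c n ((n : ℝ) ^ θ) * ((n : ℝ) ^ θ / Real.log n ^ 2)) ≤
          (((Args b c θ u n).filter (fun m => facs b c n m = x.1 ∧ col m = x.2)).card : ℝ) := by
        by_contra hcon
        push Not at hcon
        have h5 : ((Args b c θ u n).card : ℝ) ≤ ∑ x ∈ K,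
            ((((Args b c θ u n).filter (fun m => facs b c n m = x.1 ∧ col m = x.2)).card : ℕ) : ℝ) := by
          exact_mod_cast (card_le_card hcov).trans card_biUnion_le
        have hKne : K.Nonempty := by
          rw [← card_pos, hKc]
          positivity
        have h6 := sum_lt_sum_of_nonempty hKne hcon
        rw [sum_const, hKc, nsmul_eq_mul] at h6
        have h7 : ((r * k : ℕ) : ℝ) * (δ / 2 / (r * k) * (S b c n ((n : ℝ) ^ θ) * ((n : ℝ) ^ θ / Real.log n ^ 2))) =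
            δ / 2 * (S b c n ((n : ℝ) ^ θ) * ((n : ℝ) ^ θ / Real.log n ^ 2)) := by
          push_cast
          field_simp
        rw [h7] at h6
        linarith [hout n ((le_max_right _ _).trans hn) hodd hnE]
      obtain ⟨a, d, hd1, hd2, hd3⟩ := H n ((le_max_left _ _).trans hn) hodd _ (filter_subset _ _) hcc
      obtain ⟨m₀, hm₀⟩ : (((Args b c θ u n).filter (fun m => facs b c n m = x.1 ∧ col m = x.2))).Nonempty := by
        rw [← card_pos]
        have h5 : (0 : ℝ) < (((Args b c θ u n).filter (fun m => facs b c n m = x.1 ∧ col m = x.2)).card : ℝ) := by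
          refine lt_of_lt_of_le ?_ hcc
          obtain ⟨_, e2, _⟩ := hN₁ n ((le_max_right _ _).trans hn)
          have h4 := hS n hodd e2
          have hln : 0 < Real.log n := Real.log_pos (by exact_mod_cast (by omega : 1 < n))
          have h6 : 0 < S b c n ((n : ℝ) ^ θ) := lt_of_lt_of_le (by positivity) h4
          have h7 : (0 : ℝ) < (n : ℝ) ^ θ := by linarith
          positivity
        exact_mod_cast h5
      rw [mem_filter] at hm₀
      obtain ⟨g1, g2⟩ := facs_bounds hu e3 hm₀.1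
      rw [hm₀.2.1] at g1 g2
      refine ⟨x.1, g1, g2, x.2, a, d, hd1, hd2, ?_⟩
      intro j hj
      have h5 := hd3 j hj
      rw [mem_filter] at h5
      exact ⟨h5.1, h5.2.2, h5.2.1⟩

end Pool.Agent.Results.MP_d9bc60_nt.NarrowProgressions
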